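import Pool.Agent.H72.VP.FinalY
import Pool.Agent.H72.VP.Word
import Pool.Agent.H72.VP.Dig
import Pool.Agent.H72.VP.Equi
import Pool.Agent.H72.VP.Tail
import Pool.Agent.H72.VP.Many
import Pool.Agent.H72.VP.Arith

/-!
# Cube-free v-palindromes with cube-free reversal

For every `y` and all large `X` at least `X ^ (1/3)` of the numbers `n ≤ X` are v-palindromes in
base ten such that `n` and its digit reversal are both cube-free, and such that the only squares of
primes `p ≤ y` dividing `n` or its reversal are `337 ^ 2` for `n` and `367 ^ 2` for the reversal.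
-/

set_option autoImplicit false

namespace Pool.Agent.Results.MP_912f70_nt.CubeFree

/-- `v(n)`: the sum of the primes dividing `n` and of the exponents larger than `1`. -/
def vsum (n : ℕ) : ℕ :=
  ∑ p ∈ n.primeFactors, (p + if 2 ≤ n.factorization p then n.factorization p else 0)

/-- The decimal digit reversal of `n`. -/
def rev (n : ℕ) : ℕ := Nat.ofDigits 10 (Nat.digits 10 n).reverse

/-- `n` is a v-palindrome in base ten. -/
def IsVPalindrome (n : ℕ) : Prop := ¬ 10 ∣ n ∧ n ≠ rev n ∧ vsum n = vsum (rev n)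

/-- No cube of a prime divides `n`. -/
def IsCubeFree (n : ℕ) : Prop := ∀ p : ℕ, p.Prime → ¬ p ^ 3 ∣ n

/-- For every `y` and all large `X` there are at least `X ^ (1/3)` v-palindromes `n ≤ X` in base
ten such that `n` and its reversal are cube-free, `337 ^ 2` is the only square of a prime `p ≤ y`
that can divide `n`, and `367 ^ 2` the only one that can divide the reversal of `n`. -/
theorem result (y : ℕ) : ∃ X₀ : ℕ, ∀ X ≥ X₀,
    X ≤ {n : ℕ | n ≤ X ∧ IsVPalindrome n ∧ IsCubeFree n ∧ IsCubeFree (rev n) ∧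
      (∀ p : ℕ, p.Prime → p ≤ y → p ^ 2 ∣ n → p = 337) ∧
      (∀ p : ℕ, p.Prime → p ≤ y → p ^ 2 ∣ rev n → p = 367)}.ncard ^ 3 :=
  H72.VP.mainY H72.VP.wordP H72.VP.digP
    (fun k j W hW hkj hD q _ hq =>
      H72.VP.manyQ H72.VP.equiP (H72.VP.tailP H72.VP.base) k j W hW hkj hD q hq)
    H72.VP.arithP y

end Pool.Agent.Results.MP_912f70_nt.CubeFree
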